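import Pool.Agent.R205.PC.Label

set_option autoImplicit false

open MeasureTheory Filter Topology Set
open scoped ENNReal

namespace Pool.Agent.R205.TD

open Pool.Agent.R205.PC

variable {Y : Type*} [MeasurableSpace Y]

/-- Labels with fresh values at every large scale, nonzero only on a small set. -/
theorem exists_labels2 [StandardBorelSpace Y] (μ : Measure Y) [IsProbabilityMeasure μ] (S : Y ≃ᵐ Y)
    (hS : MeasurePreserving S μ μ) (hap : ∀ᵐ y ∂μ, ∀ n : ℕ, 0 < n → S^[n] y ≠ y)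
    (L : ℕ → ℕ) (hL : Monotone L) (ε : ℝ≥0∞) (hε : ε ≠ 0) :
    ∃ (ξ : Y → ℕ) (k0 : ℕ), Measurable ξ ∧ μ {y | ξ y ≠ 0} ≤ ε ∧ ∀ᵐ y ∂μ, ∀ k, k0 ≤ k → ∀ a : ℕ,
      ∃ t, a ≤ t ∧ t ≤ a + 2 * 2 ^ k ∧
      ∀ s, s ≠ t → s ≤ t + L k → t ≤ s + L k → ξ (S^[s] y) ≠ ξ (S^[t] y) := by
  classical
  set v : Y → ℝ := embeddingReal Y with hv
  have hvm : Measurable v := (measurableEmbedding_embeddingReal Y).measurable
  have hvi : Function.Injective v := (measurableEmbedding_embeddingReal Y).injective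
  obtain ⟨e, he⟩ := exists_surjective_nat (ℚ × ℚ)
  set D : ℕ → Set Y := fun i => {z | ((e i).1 : ℝ) < v z ∧ v z < (e i).2} with hD
  have hDm : ∀ i, MeasurableSet (D i) := fun i =>
    (measurableSet_lt measurable_const hvm).inter (measurableSet_lt hvm measurable_const)
  have hexG : ∀ y : Y, (∀ n : ℕ, 0 < n → S^[n] y ≠ y) → ∀ L, ∃ i, Gd S D L y i := by
    intro y hy L
    have hnot : v y ∉ (Finset.Icc 1 L).image (fun j => v (S^[j] y)) := by
      intro h
      obtain ⟨j, hj, hj'⟩ := Finset.mem_image.1 h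
      exact hy j (by rw [Finset.mem_Icc] at hj; omega) (hvi hj')
    obtain ⟨i, h1, h2, h3⟩ := ex_rat_sep he _ y hnot
    refine ⟨i, ⟨h1, h2⟩, fun j hj hmem => ?_⟩
    exact h3 _ (Finset.mem_image_of_mem _ hj) hmem
  -- aperiodicity along the whole orbit
  have hap' : ∀ᵐ y ∂μ, ∀ t n : ℕ, 0 < n → S^[n] (S^[t] y) ≠ S^[t] y := by
    rw [ae_all_iff]
    intro t
    exact (hS.iterate t).quasiMeasurePreserving.ae hap
  set q : ℕ → Y → ℕ := fun l => Qc S D l with hq
  have hqm : ∀ l, Measurable (q l) := fun l => meas_Qc S D hDm l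
  have hsep : ∀ᵐ y ∂μ, ∀ l t j : ℕ, 1 ≤ j → j ≤ l → q l (S^[t] y) ≠ q l (S^[j] (S^[t] y)) := by
    filter_upwards [hap'] with y hy l t j h1 h2
    refine Qc_sep S D (hexG _ (hy t) l) (hexG _ ?_ l) h1 h2
    intro n hn
    have := hy (j + t) n hn
    rw [Function.iterate_add_apply S j t] at this
    exact this
  set M : ℕ → Set Y := fun k => Mk S (q (2 ^ k)) (2 ^ k) with hM
  have hMm : ∀ k, MeasurableSet (M k) := fun k => meas_Mk S _ _ (hqm _)
  have hMle : ∀ k, μ (M k) ≤ (1 / 2 : ℝ≥0∞) ^ k := by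
    intro k
    have h1 := Mk_meas S (q (2 ^ k)) (2 ^ k) μ hS (hqm _) (by
      filter_upwards [hsep] with y hy t j h1 h2
      exact hy _ t j h1 h2)
    have h2 : μ (M k) * 2 ^ k ≤ 1 := by
      refine le_trans ?_ h1
      gcongr
      push_cast
      exact le_self_add
    have h3 : μ (M k) ≤ 1 / 2 ^ k := ENNReal.le_div_iff_mul_le (Or.inl (by simp)) (Or.inl (by finiteness)) |>.2 h2
    rw [one_div, ← ENNReal.inv_pow]
    rw [one_div] at h3
    exact h3
  have hsum : ∑' k, μ (M k) ≠ ∞ := by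
    refine ne_top_of_le_ne_top ?_ (ENNReal.tsum_le_tsum hMle)
    rw [ENNReal.tsum_geometric, one_div, ENNReal.one_sub_inv_two, inv_inv]
    exact ENNReal.ofNat_ne_top
  have hfin : ∀ᵐ y ∂μ, ∃ K, ∀ k, K ≤ k → y ∉ M k := by
    filter_upwards [ae_eventually_notMem hsum] with y hy
    exact eventually_atTop.1 hy
  -- the level
  have hex : ∀ y : Y, ∃ K, (∀ k, K ≤ k → y ∉ M k) ∨ ¬ ∃ K', ∀ k, K' ≤ k → y ∉ M k := by
    intro y
    by_cases h : ∃ K, ∀ k, K ≤ k → y ∉ M k
    · obtain ⟨K, hK⟩ := h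
      exact ⟨K, Or.inl hK⟩
    · exact ⟨0, Or.inr h⟩
  set lev : Y → ℕ := fun y => Nat.find (hex y) with hlev
  have hset : ∀ K, MeasurableSet {y | ∀ k, K ≤ k → y ∉ M k} := by
    intro K
    have : {y | ∀ k, K ≤ k → y ∉ M k} = ⋂ k, ⋂ (_ : K ≤ k), (M k)ᶜ := by
      ext y; simp
    rw [this]
    exact MeasurableSet.iInter fun k => MeasurableSet.iInter fun _ => (hMm k).compl
  have hlevm : Measurable lev := by
    refine measurable_find hex fun K => ?_
    have : {y | (∀ k, K ≤ k → y ∉ M k) ∨ ¬ ∃ K', ∀ k, K' ≤ k → y ∉ M k} =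
        {y | ∀ k, K ≤ k → y ∉ M k} ∪ (⋃ K', {y | ∀ k, K' ≤ k → y ∉ M k})ᶜ := by
      ext y; simp
    rw [this]
    exact (hset K).union (MeasurableSet.iUnion hset).compl
  have hlev_lt : ∀ y k, (∃ K, ∀ k, K ≤ k → y ∉ M k) → y ∈ M k → k < lev y := by
    intro y k h hk
    have h1 := Nat.find_spec (hex y)
    rcases h1 with h1 | h1
    · by_contra hcon
      exact h1 k (not_lt.1 hcon) hk
    · exact absurd h h1
  obtain ⟨k0, hk0⟩ := ENNReal.exists_inv_two_pow_lt (show ε / 2 ≠ 0 from (ENNReal.div_pos hε (by simp)).ne')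
  have hlev_mem : ∀ y, k0 < lev y → y ∈ ⋃ k, M (k + k0) := by
    intro y hy
    have h1 := Nat.find_min (hex y) hy
    push Not at h1
    obtain ⟨⟨k, hk, hk'⟩, _⟩ := h1
    refine Set.mem_iUnion.2 ⟨k - k0, ?_⟩
    rwa [Nat.sub_add_cancel hk]
  have htail : μ (⋃ k, M (k + k0)) ≤ ε := by
    refine (measure_iUnion_le _).trans ?_
    have h1 : ∑' k, μ (M (k + k0)) ≤ ∑' k : ℕ, (1 / 2 : ℝ≥0∞) ^ k * (1 / 2 : ℝ≥0∞) ^ k0 := by
      refine ENNReal.tsum_le_tsum fun k => ?_
      rw [← pow_add]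
      exact hMle _
    refine h1.trans ?_
    rw [ENNReal.tsum_mul_right, ENNReal.tsum_geometric, one_div, ENNReal.one_sub_inv_two, inv_inv]
    calc (2 : ℝ≥0∞) * 2⁻¹ ^ k0 ≤ 2 * (ε / 2) := mul_le_mul_right hk0.le _
      _ = ε := ENNReal.mul_div_cancel (by simp) (by simp)
  refine ⟨fun y => if k0 < lev y then Nat.pair (lev y) (q (L (lev y)) y) + 1 else 0, k0, ?_, ?_, ?_⟩
  · have h1 : Measurable (fun p : ℕ × Y => q (L p.1) p.2) :=
      measurable_from_prod_countable_right fun k => hqm (L k)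
    have h2 : Measurable (fun y => q (L (lev y)) y) := h1.comp (hlevm.prodMk measurable_id)
    have h3 : Measurable (fun p : ℕ × ℕ => if k0 < p.1 then Nat.pair p.1 p.2 + 1 else 0) := Measurable.of_discrete
    exact h3.comp (hlevm.prodMk h2)
  · refine le_trans (measure_mono ?_) htail
    intro y hy
    by_cases h : k0 < lev y
    · exact hlev_mem y h
    · exact absurd (if_neg h) hy
  · have hfin' : ∀ᵐ y ∂μ, ∀ t, ∃ K, ∀ k, K ≤ k → S^[t] y ∉ M k := by
      rw [ae_all_iff]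
      intro t
      exact (hS.iterate t).quasiMeasurePreserving.ae hfin
    filter_upwards [hsep, hfin'] with y hy hf k hk a
    obtain ⟨t, ht1, ht2, ht3⟩ := Mk_window S (q (2 ^ k)) (2 ^ k) y a
    refine ⟨t, ht1, ht2, fun s hst hs1 hs2 heq => ?_⟩
    have hlt : k < lev (S^[t] y) := hlev_lt _ k (hf t) ht3
    rw [if_pos (show k0 < lev (S^[t] y) by omega)] at heq
    by_cases hls : k0 < lev (S^[s] y)
    swap
    · rw [if_neg hls] at heq
      omega
    rw [if_pos hls, Nat.add_right_cancel_iff, Nat.pair_eq_pair] at heq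
    obtain ⟨he1, he2⟩ := heq
    rw [he1] at he2
    have hLk : L k ≤ L (lev (S^[t] y)) := hL hlt.le
    rcases lt_or_gt_of_ne hst with h | h
    · have := hy (L (lev (S^[t] y))) s (t - s) (by omega) (by omega)
      rw [← Function.iterate_add_apply, show t - s + s = t by omega] at this
      exact this he2
    · have := hy (L (lev (S^[t] y))) t (s - t) (by omega) (by omega)
      rw [← Function.iterate_add_apply, show s - t + t = s by omega] at this
      exact this he2.symm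

end Pool.Agent.R205.TD
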