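import Pool.Agent.R205.TC.A3

/-!
# Towers with random heights: the shift argument for one point
-/

set_option autoImplicit false

open MeasureTheory Filter Topology Set Finset
open scoped ENNReal ComplexConjugate

namespace Pool.Agent.R205.TD

open Pool.Agent.R205.PC (Lk ae_cofinite)
open Pool.Agent.R205.TC

/-- fresh labels at all large scales -/
def FreshL {Y : Type*} (S : Y → Y) (ξ : Y → ℕ) (k0 : ℕ) (y : Y) : Prop :=
  ∀ k, k0 ≤ k → ∀ a : ℕ, ∃ t, a ≤ t ∧ t ≤ a + 2 * 2 ^ k ∧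
      ∀ s, s ≠ t → s ≤ t + Lk k → t ≤ s + Lk k → ξ (S^[s] y) ≠ ξ (S^[t] y)

lemma data_of_fresh {Y : Type*} (S : Y → Y) (ξ : Y → ℕ) (y : Y) (k0 : ℕ) (hy : FreshL S ξ k0 y) (e : ℕ → ℕ) (b : ℕ)
    (he : ∀ s, 1 ≤ e s) (hb : ∀ s, e s + 1 ≤ b) (k R : ℕ) (hk : k0 ≤ k) (hR : R ≤ Lk k) :
    Data e (fun s => ξ (S^[s] y)) b (2 * 2 ^ k + 1) R := by
  refine ⟨he, hb, fun a ha => ?_⟩
  obtain ⟨t, h1, h2, h3⟩ := hy k hk a
  exact ⟨t, h1, by omega, fun s hs hst => h3 s hst (by omega) (by omega)⟩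

/-- the shift argument -/
theorem star {Y : Type*} (S : Y → Y) (ξ : Y → ℕ) (y : Y) (k0 : ℕ) (hy : FreshL S ξ k0 y) (e : ℕ → ℕ) (b : ℕ)
    (he : ∀ s, 1 ≤ e s) (hb : ∀ s, e s + 1 ≤ b) (r : ℕ) (a : ℕ → ℕ) (ha0 : 1 ≤ a r) (ha : ∀ j < r, a j + 1 ≤ a r)
    (c i : ℕ) (β : ℕ → ℂ) (g : ℕ → ℕ × ℕ → ℂ) (C : ℝ) (hC : 1 ≤ C) (hβ : ∀ n, ‖β n‖ ≤ C)
    (hg : ∀ j z, ‖g j z‖ ≤ C) :
    ∀ᵐ θ ∂CP, Tendsto (fun N : ℕ => (N : ℂ)⁻¹ * ∑ n ∈ Finset.Icc 1 N,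
      β n * (∏ j ∈ Finset.range r, g j (pos (hgt e (fun s => ξ (S^[s] y)) θ) (a j * n + c))) *
        (g r (pos (hgt e (fun s => ξ (S^[s] y)) θ) (a r * n + c + i + 1)) -
          g r (pos (hgt e (fun s => ξ (S^[s] y)) θ) (a r * n + c + i)))) atTop (𝓝 0) := by
  set lam : ℕ → ℕ := fun s => ξ (S^[s] y) with hlam
  have hC0 : 0 ≤ C := by linarith
  set Pr : ℕ → (ℕ → Bool) → ℂ := fun n θ => ∏ j ∈ Finset.range r, g j (pos (hgt e lam θ) (a j * n + c)) with hPr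
  set Dd : ℕ → (ℕ → Bool) → ℂ := fun n θ => g r (pos (hgt e lam θ) (a r * n + c + i + 1)) -
    g r (pos (hgt e lam θ) (a r * n + c + i)) with hDd
  set Ξ : ℕ → (ℕ → Bool) → ℂ := fun n θ => β n * Pr n θ * Dd n θ with hΞ
  have hgm : ∀ j p, Measurable (fun θ : ℕ → Bool => g j (pos (hgt e lam θ) p)) := fun j p =>
    (Measurable.of_discrete (f := g j)).comp (meas_pos e lam p)
  have hPm : ∀ n, Measurable (Pr n) := fun n => Finset.measurable_fun_prod _ fun j _ => hgm j _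
  have hDm : ∀ n, Measurable (Dd n) := fun n => (hgm r _).sub (hgm r _)
  have hΞm : ∀ n, Measurable (Ξ n) := fun n => (measurable_const.mul (hPm n)).mul (hDm n)
  have hPb : ∀ n θ, ‖Pr n θ‖ ≤ C ^ r := by
    intro n θ
    simp only [hPr]
    rw [norm_prod]
    calc ∏ j ∈ Finset.range r, ‖g j (pos (hgt e lam θ) (a j * n + c))‖ ≤ ∏ _j ∈ Finset.range r, C :=
          Finset.prod_le_prod (fun _ _ => norm_nonneg _) fun j _ => hg j _
      _ = C ^ r := by rw [Finset.prod_const, Finset.card_range]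
  have hDb : ∀ n θ, ‖Dd n θ‖ ≤ 2 * C := fun n θ => by
    refine (norm_sub_le _ _).trans ((add_le_add (hg _ _) (hg _ _)).trans (by linarith))
  set C2 : ℝ := C * C ^ r * (2 * C) with hC2
  have hC20 : 0 ≤ C2 := by positivity
  have hΞb : ∀ n θ, ‖Ξ n θ‖ ≤ C2 := by
    intro n θ
    simp only [hΞ]
    rw [norm_mul, norm_mul]
    exact mul_le_mul (mul_le_mul (hβ n) (hPb n θ) (norm_nonneg _) hC0) (hDb n θ) (norm_nonneg _) (by positivity)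
  set C1 : ℝ := max (C * C ^ r * C2) C with hC1
  have hC10 : 0 ≤ C1 := le_max_of_le_right hC0
  -- correlation bound
  have hcor : ∀ (k Q N : ℕ), k0 ≤ k → 0 < Q → a r * N + c + i + 2 ≤ Lk k → ∀ n' n,
      n' + (b * ((Q + 1) * (2 * 2 ^ k + 1)) + 1) ≤ n → n ≤ N →
      ‖∫ θ, Ξ n θ * conj (Ξ n' θ) ∂CP‖ ≤ 2 * C1 ^ 2 / Real.sqrt Q := by
    intro k Q N hk0 hQ hk n' n hnn hnN
    set R := a r * N + c + i + 2 with hR
    have hD := data_of_fresh S ξ y k0 hy e b he hb k R hk0 hk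
    set Wd := b * ((Q + 1) * (2 * 2 ^ k + 1)) with hWd
    set q := a r * n + c + i with hq
    set P0 := q - Wd with hP0
    have hqn : n ≤ a r * n := Nat.le_mul_of_pos_left _ ha0
    have hP0q : P0 + Wd = q := by omega
    have hRn : a r * n ≤ a r * N := Nat.mul_le_mul_left _ hnN
    have h1 := corr hD (by omega) P0 q Q hQ hP0q.le (by omega) C1 hC10
      (fun θ => β n * Pr n θ * conj (Ξ n' θ))
      ((measurable_const.mul (hPm n)).mul (Complex.continuous_conj.measurable.comp (hΞm n')))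
      (fun θ => by
        rw [norm_mul, norm_mul, Complex.norm_conj]
        refine le_trans ?_ (le_max_left _ _)
        exact mul_le_mul (mul_le_mul (hβ n) (hPb n θ) (norm_nonneg _) hC0) (hΞb n' θ) (norm_nonneg _) (by positivity))
      (fun θ θ' hθ => by
        have hag : ∀ p, p ≤ P0 → pos (hgt e lam θ') p = pos (hgt e lam θ) p := fun p hp =>
          pos_agree' _ _ p fun s hs => hθ s (hs.trans (col_mono _ hp))
        have e1 : Pr n θ' = Pr n θ := by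
          simp only [hPr]
          refine Finset.prod_congr rfl fun j hj => ?_
          rw [hag]
          have h2 := ha j (Finset.mem_range.1 hj)
          have h3 : (a j + 1) * n ≤ a r * n := Nat.mul_le_mul_right _ h2
          have h4 : (a j + 1) * n = a j * n + n := by ring
          omega
        have hn' : a r * n' + Wd + 1 ≤ a r * n := by
          have h2 : a r * (n' + (Wd + 1)) ≤ a r * n := Nat.mul_le_mul_left _ hnn
          have h3 : Wd + 1 ≤ a r * (Wd + 1) := Nat.le_mul_of_pos_left _ ha0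
          have h4 : a r * (n' + (Wd + 1)) = a r * n' + a r * (Wd + 1) := by ring
          omega
        have e2 : Ξ n' θ' = Ξ n' θ := by
          simp only [hΞ, hPr, hDd]
          rw [hag _ (by omega), hag _ (by omega)]
          congr 2
          refine Finset.prod_congr rfl fun j hj => ?_
          rw [hag]
          have h2 := ha j (Finset.mem_range.1 hj)
          have h3 : (a j + 1) * n' ≤ a r * n' := Nat.mul_le_mul_right _ h2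
          have h4 : (a j + 1) * n' = a j * n' + n' := by ring
          omega
        simp only [e1, e2])
      (g r) (fun z => (hg r z).trans (le_max_right _ _))
    refine le_trans (le_of_eq ?_) h1
    congr 1
    refine integral_congr_ae (Eventually.of_forall fun θ => ?_)
    simp only [hΞ, hDd]
    ring
  -- second moments
  have hev : ∃ ρ0 : ℕ, 1 ≤ ρ0 ∧ ∀ ρ : ℕ, ρ0 ≤ ρ → k0 ≤ Nat.log 4 (ρ ^ 16) ∧
      a r * ρ ^ 16 + c + i + 2 ≤ Lk (Nat.log 4 (ρ ^ 16)) := by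
    obtain ⟨q4, hq4⟩ : ∃ q4 : ℕ, q4 = 4 ^ k0 := ⟨_, rfl⟩
    refine ⟨a r + c + i + 4 + q4, by omega, fun ρ hρ => ?_⟩
    set N := ρ ^ 16 with hN
    have hρN : ρ ≤ N := Nat.le_self_pow (by norm_num) ρ
    have h4 : 4 ≤ N := by omega
    have hlog : 1 ≤ Nat.log 4 N := Nat.le_log_of_pow_le (by norm_num) (by omega)
    have h5 : N < 4 ^ (Nat.log 4 N + 1) := Nat.lt_pow_succ_log_self (by norm_num) N
    have h6 : N ^ 2 ≤ Lk (Nat.log 4 N) := by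
      unfold Lk
      calc N ^ 2 ≤ (4 ^ (Nat.log 4 N + 1)) ^ 2 := Nat.pow_le_pow_left h5.le 2
        _ = 4 ^ ((Nat.log 4 N + 1) * 2) := by rw [← pow_mul]
        _ ≤ 4 ^ ((Nat.log 4 N + 1) ^ 2) := by
            apply Nat.pow_le_pow_right (by norm_num)
            rw [sq]
            exact Nat.mul_le_mul_left _ (by omega)
    have h7 : a r * N + c + i + 2 ≤ N ^ 2 := by
      rw [sq]
      have h8 : (a r + (c + i + 2)) * N ≤ N * N := Nat.mul_le_mul_right _ (by omega)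
      have h9 : c + i + 2 ≤ (c + i + 2) * N := Nat.le_mul_of_pos_right _ (by omega)
      nlinarith
    refine ⟨Nat.le_log_of_pow_le (by norm_num) (by rw [← hq4]; omega), h7.trans h6⟩
  obtain ⟨ρ0, hρ01, hρ0⟩ := hev
  set C3 : ℝ := C2 ^ 2 * (2 * (6 * b + 2) + 1) + 2 * C1 ^ 2 with hC3
  have hC30 : 0 ≤ C3 := by positivity
  have hmom : ∀ ρ : ℕ, ρ0 ≤ ρ → ∫ θ, ‖((ρ ^ 16 : ℕ) : ℂ)⁻¹ * ∑ n ∈ Finset.Icc 1 (ρ ^ 16), Ξ n θ‖ ^ 2 ∂CP ≤ C3 / (ρ : ℝ) ^ 2 := by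
    intro ρ hρ
    have hρ1 : 1 ≤ ρ := hρ01.trans hρ
    have hρR : (1 : ℝ) ≤ ρ := by exact_mod_cast hρ1
    set N := ρ ^ 16 with hN
    set k := Nat.log 4 N with hk
    have hQ : 0 < ρ ^ 4 := Nat.pow_pos hρ1
    set G := b * ((ρ ^ 4 + 1) * (2 * 2 ^ k + 1)) + 1 with hG
    have h1 := moment2 CP Ξ hΞm C2 hΞb N G (2 * C1 ^ 2 / Real.sqrt ((ρ ^ 4 : ℕ) : ℝ)) (by positivity)
      (fun n' n hnn hnN => hcor k (ρ ^ 4) N (hρ0 ρ hρ).1 hQ (hρ0 ρ hρ).2 n' n hnn hnN)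
    have hsq : Real.sqrt ((ρ ^ 4 : ℕ) : ℝ) = (ρ : ℝ) ^ 2 := by
      rw [Nat.cast_pow, show (ρ : ℝ) ^ 4 = ((ρ : ℝ) ^ 2) ^ 2 by ring, Real.sqrt_sq (by positivity)]
    rw [hsq] at h1
    have h2k : 2 ^ k ≤ ρ ^ 8 := by
      have e1 : 4 ^ k ≤ N := Nat.pow_log_le_self 4 (by positivity)
      have e2 : (2 ^ k) ^ 2 ≤ (ρ ^ 8) ^ 2 := by
        calc (2 ^ k) ^ 2 = 4 ^ k := by rw [← pow_mul, mul_comm, pow_mul]; norm_num
          _ ≤ N := e1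
          _ = (ρ ^ 8) ^ 2 := by rw [hN]; ring
      exact (Nat.pow_le_pow_iff_left (by norm_num)).1 e2
    have hGle : (G : ℝ) ≤ (6 * b + 1) * (ρ : ℝ) ^ 12 := by
      have e1 : G ≤ b * ((ρ ^ 4 + ρ ^ 4) * (3 * ρ ^ 8)) + ρ ^ 12 := by
        have e2 : 1 ≤ ρ ^ 4 := hQ
        have e3 : 1 ≤ ρ ^ 8 := Nat.one_le_pow _ _ hρ1
        have e4 : 1 ≤ ρ ^ 12 := Nat.one_le_pow _ _ hρ1
        have e5 : (ρ ^ 4 + 1) * (2 * 2 ^ k + 1) ≤ (ρ ^ 4 + ρ ^ 4) * (3 * ρ ^ 8) :=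
          Nat.mul_le_mul (by omega) (by omega)
        have e6 := Nat.mul_le_mul_left b e5
        omega
      have e7 : ((G : ℕ) : ℝ) ≤ ((b * ((ρ ^ 4 + ρ ^ 4) * (3 * ρ ^ 8)) + ρ ^ 12 : ℕ) : ℝ) := by exact_mod_cast e1
      refine e7.trans (le_of_eq ?_)
      push_cast
      ring
    have hNR : (N : ℝ) = (ρ : ℝ) ^ 16 := by rw [hN]; push_cast; ring
    have hN0 : (0 : ℝ) < N := by rw [hNR]; positivity
    have h2 : ∀ θ, ‖(N : ℂ)⁻¹ * ∑ n ∈ Finset.Icc 1 N, Ξ n θ‖ ^ 2 = ((N : ℝ) ^ 2)⁻¹ * ‖∑ n ∈ Finset.Icc 1 N, Ξ n θ‖ ^ 2 := by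
      intro θ
      rw [norm_mul, mul_pow, norm_inv, Complex.norm_natCast, inv_pow]
    simp only [h2]
    rw [integral_const_mul]
    calc ((N : ℝ) ^ 2)⁻¹ * ∫ θ, ‖∑ n ∈ Finset.Icc 1 N, Ξ n θ‖ ^ 2 ∂CP
        ≤ ((N : ℝ) ^ 2)⁻¹ * (C2 ^ 2 * N * (2 * G + 1) + N ^ 2 * (2 * C1 ^ 2 / (ρ : ℝ) ^ 2)) := by gcongr
      _ = C2 ^ 2 * (2 * G + 1) / N + 2 * C1 ^ 2 / (ρ : ℝ) ^ 2 := by field_simp
      _ ≤ C2 ^ 2 * ((2 * (6 * b + 2) + 1) * (ρ : ℝ) ^ 12) / N + 2 * C1 ^ 2 / (ρ : ℝ) ^ 2 := by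
          gcongr
          have e8 : (1 : ℝ) ≤ (ρ : ℝ) ^ 12 := one_le_pow₀ hρR
          nlinarith
      _ = C2 ^ 2 * (2 * (6 * b + 2) + 1) / (ρ : ℝ) ^ 4 + 2 * C1 ^ 2 / (ρ : ℝ) ^ 2 := by
          rw [hNR]
          field_simp
      _ ≤ C2 ^ 2 * (2 * (6 * b + 2) + 1) / (ρ : ℝ) ^ 2 + 2 * C1 ^ 2 / (ρ : ℝ) ^ 2 := by
          gcongr
          norm_num
      _ = C3 / (ρ : ℝ) ^ 2 := by rw [hC3, ← add_div]
  set C4 : ℝ := 4 * C3 + C2 ^ 2 * ((ρ0 : ℝ) + 1) ^ 2 with hC4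
  have hsumm : Summable (fun ρ : ℕ => C4 * (1 / ((ρ : ℝ) + 1) ^ 2)) := by
    refine Summable.mul_left _ ?_
    have := (summable_nat_add_iff 1).2 (Real.summable_one_div_nat_pow.2 (by norm_num : 1 < 2))
    simpa using this
  have hAb : ∀ (ρ : ℕ) θ, ‖((ρ ^ 16 : ℕ) : ℂ)⁻¹ * ∑ n ∈ Finset.Icc 1 (ρ ^ 16), Ξ n θ‖ ≤ C2 := by
    intro ρ θ
    rw [norm_mul, norm_inv, Complex.norm_natCast]
    have h1 : ‖∑ n ∈ Finset.Icc 1 (ρ ^ 16), Ξ n θ‖ ≤ ((ρ ^ 16 : ℕ) : ℝ) * C2 := by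
      refine (norm_sum_le_of_le _ fun n _ => hΞb n θ).trans ?_
      rw [Finset.sum_const, Nat.card_Icc, Nat.add_sub_cancel, nsmul_eq_mul]
    rcases Nat.eq_zero_or_pos (ρ ^ 16) with h0 | h0
    · rw [h0]; simp [hC20]
    · have h0' : (0 : ℝ) < ((ρ ^ 16 : ℕ) : ℝ) := by exact_mod_cast h0
      rw [inv_mul_le_iff₀ h0']
      exact h1
  have hae := ae_cofinite CP (fun (ρ : ℕ) θ => ((ρ ^ 16 : ℕ) : ℂ)⁻¹ * ∑ n ∈ Finset.Icc 1 (ρ ^ 16), Ξ n θ)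
    (fun ρ => measurable_const.mul (Finset.measurable_fun_sum _ fun n _ => hΞm n)) (fun _ => C2) hAb _ hsumm (fun ρ => by
      rcases lt_or_ge ρ ρ0 with h1 | h1
      · have h2 : ∫ θ, ‖((ρ ^ 16 : ℕ) : ℂ)⁻¹ * ∑ n ∈ Finset.Icc 1 (ρ ^ 16), Ξ n θ‖ ^ 2 ∂CP ≤ C2 ^ 2 := by
          have h3 := integral_mono_of_nonneg (μ := CP)
            (f := fun θ => ‖((ρ ^ 16 : ℕ) : ℂ)⁻¹ * ∑ n ∈ Finset.Icc 1 (ρ ^ 16), Ξ n θ‖ ^ 2) (g := fun _ => C2 ^ 2)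
            (Eventually.of_forall fun θ => by simp only [Pi.zero_apply]; positivity) (integrable_const _)
            (Eventually.of_forall fun θ => pow_le_pow_left₀ (norm_nonneg _) (hAb ρ θ) 2)
          simpa using h3
        refine h2.trans ?_
        have h4 : ((ρ : ℝ) + 1) ≤ (ρ0 : ℝ) + 1 := by
          have : (ρ : ℝ) ≤ ρ0 := by exact_mod_cast h1.le
          linarith
        rw [mul_one_div, le_div_iff₀ (by positivity)]
        calc C2 ^ 2 * ((ρ : ℝ) + 1) ^ 2 ≤ C2 ^ 2 * ((ρ0 : ℝ) + 1) ^ 2 := by gcongr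
          _ ≤ C4 := by rw [hC4]; linarith
      · refine (hmom ρ h1).trans ?_
        have hρR : (1 : ℝ) ≤ ρ := by exact_mod_cast hρ01.trans h1
        rw [mul_one_div, div_le_div_iff₀ (by positivity) (by positivity)]
        have h5 : ((ρ : ℝ) + 1) ^ 2 ≤ 4 * (ρ : ℝ) ^ 2 := by nlinarith
        calc C3 * ((ρ : ℝ) + 1) ^ 2 ≤ C3 * (4 * (ρ : ℝ) ^ 2) := by gcongr
          _ = (4 * C3) * (ρ : ℝ) ^ 2 := by ring
          _ ≤ C4 * (ρ : ℝ) ^ 2 := by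
              gcongr
              rw [hC4]
              have : 0 ≤ C2 ^ 2 * ((ρ0 : ℝ) + 1) ^ 2 := by positivity
              linarith)
  filter_upwards [hae] with θ hθ
  rw [Nat.cofinite_eq_atTop] at hθ
  exact tendsto_of_16 (fun n => Ξ n θ) C2 (fun n => hΞb n θ) hθ

end Pool.Agent.R205.TD
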