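import Pool.Agent.R205.TC.B4
import Pool.Agent.R205.TD.S
import Pool.Agent.R205.TD.L

/-!
# Weighted averages and time changes on small sets
-/

set_option autoImplicit false

open MeasureTheory Filter Topology Set Finset
open scoped ENNReal ComplexConjugate

namespace Pool.Agent.R205.TD

open Pool.Agent.R205.PC (Lk avg_small prod_sub_le ex fx dd dd_meas dd_bound dd_approx)
open Pool.Agent.R205.TC
open MeasurableSpace

section Abs

variable {X : Type*} [MeasurableSpace X]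

/-- the weighted multiple averages -/
noncomputable def wav (T : X → X) (w : ℕ → X → ℂ) (m : ℕ) (a : ℕ → ℕ) (f : ℕ → X → ℂ) (N : ℕ) (z : X) : ℂ :=
  (N : ℂ)⁻¹ * ∑ n ∈ Finset.Icc 1 N, w n z * ∏ j ∈ range m, f j (T^[a j * n] z)

/-- the reduction of the last function -/
lemma step_one_w {ν : Measure X} [IsProbabilityMeasure ν] {T : X → X} (hT : MeasurePreserving T ν ν) (m : ℕ)
    (a : ℕ → ℕ) (f : ℕ → X → ℂ) (hf : ∀ j, Measurable (f j)) (C : ℝ) (hC : 1 ≤ C) (hfC : ∀ j z, ‖f j z‖ ≤ C)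
    (w : ℕ → X → ℂ) (hw : ∀ n z, ‖w n z‖ ≤ C)
    (h : ∀ i : ℕ, ∀ᵐ z ∂ν, Tendsto (fun N : ℕ => (N : ℂ)⁻¹ * ∑ n ∈ Finset.Icc 1 N,
      (w n z * ∏ j ∈ range m, f j (T^[a j * n] z)) * (f m (T^[a m * n + i + 1] z) - f m (T^[a m * n + i] z))) atTop (𝓝 0)) :
    ∀ᵐ z ∂ν, Tendsto (fun N : ℕ => wav T w (m + 1) a f N z - ET ν T C (f m) z * wav T w m a f N z) atTop (𝓝 0) := by
  have hC0 : 0 ≤ C := by linarith
  filter_upwards [ae_all_iff.2 h, small_all hT (f m) (hf m) C hC0 (hfC m) (a m)] with z hz hsm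
  set P : ℕ → ℂ := fun n => w n z * ∏ j ∈ range m, f j (T^[a j * n] z) with hP
  have hPb : ∀ n, ‖P n‖ ≤ C ^ (m + 1) := by
    intro n
    simp only [hP]
    rw [norm_mul, norm_prod, pow_succ']
    refine mul_le_mul (hw n z) ?_ (Finset.prod_nonneg fun _ _ => norm_nonneg _) hC0
    calc ∏ j ∈ range m, ‖f j (T^[a j * n] z)‖ ≤ ∏ _j ∈ range m, C :=
          Finset.prod_le_prod (fun _ _ => norm_nonneg _) fun j _ => hfC j _
      _ = C ^ m := by rw [Finset.prod_const, Finset.card_range]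
  have hk : ∀ k : ℕ, Tendsto (fun N : ℕ => (N : ℂ)⁻¹ * ∑ n ∈ Finset.Icc 1 N,
      P n * (f m (T^[a m * n + k] z) - f m (T^[a m * n] z))) atTop (𝓝 0) := by
    intro k
    induction k with
    | zero => simp
    | succ k ih =>
      have h1 := ih.add (hz k)
      rw [add_zero] at h1
      refine h1.congr fun N => ?_
      rw [← mul_add, ← Finset.sum_add_distrib]
      congr 1
      refine Finset.sum_congr rfl fun n _ => ?_
      simp only [hP, add_assoc]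
      ring
  have hρ : ∀ ρ : ℕ, 0 < ρ → Tendsto (fun N : ℕ => (N : ℂ)⁻¹ * ∑ n ∈ Finset.Icc 1 N,
      P n * ((ρ : ℂ)⁻¹ * ∑ k ∈ range ρ, f m (T^[k] (T^[a m * n] z)) - f m (T^[a m * n] z))) atTop (𝓝 0) := by
    intro ρ hρ
    have hρ0 : (ρ : ℂ) ≠ 0 := by exact_mod_cast hρ.ne'
    have h1 : Tendsto (fun N : ℕ => (ρ : ℂ)⁻¹ * ∑ k ∈ range ρ, ((N : ℂ)⁻¹ * ∑ n ∈ Finset.Icc 1 N,
        P n * (f m (T^[a m * n + k] z) - f m (T^[a m * n] z)))) atTop (𝓝 0) := by
      have := (tendsto_finsetSum (range ρ) fun k _ => hk k).const_mul (ρ : ℂ)⁻¹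
      simpa using this
    refine h1.congr fun N => ?_
    rw [← Finset.mul_sum, Finset.sum_comm, mul_left_comm, Finset.mul_sum]
    congr 1
    refine Finset.sum_congr rfl fun n _ => ?_
    rw [← Finset.mul_sum, mul_left_comm, Finset.sum_sub_distrib, Finset.sum_const, Finset.card_range, nsmul_eq_mul,
      mul_sub, inv_mul_cancel_left₀ hρ0]
    congr 3
    refine Finset.sum_congr rfl fun k _ => ?_
    rw [← Function.iterate_add_apply, add_comm k]
  rw [Metric.tendsto_nhds]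
  intro ε hε
  obtain ⟨ρ, hρ1, hρ2⟩ := hsm (ε / (4 * C ^ (m + 1))) (by positivity)
  have h3 := (Metric.tendsto_nhds.1 (hρ ρ hρ1)) (ε / 2) (by positivity)
  filter_upwards [hρ2, h3] with N h1 h2
  rw [dist_zero_right] at h2 ⊢
  have e1 : wav T w (m + 1) a f N z - ET ν T C (f m) z * wav T w m a f N z =
      (N : ℂ)⁻¹ * ∑ n ∈ Finset.Icc 1 N, P n * (((ρ : ℂ)⁻¹ * ∑ k ∈ range ρ, f m (T^[k] (T^[a m * n] z))) -
        ET ν T C (f m) (T^[a m * n] z)) -
      (N : ℂ)⁻¹ * ∑ n ∈ Finset.Icc 1 N,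
        P n * ((ρ : ℂ)⁻¹ * ∑ k ∈ range ρ, f m (T^[k] (T^[a m * n] z)) - f m (T^[a m * n] z)) := by
    unfold wav
    rw [mul_left_comm, ← mul_sub, ← mul_sub, Finset.mul_sum, ← Finset.sum_sub_distrib, ← Finset.sum_sub_distrib]
    congr 1
    refine Finset.sum_congr rfl fun n _ => ?_
    rw [Finset.prod_range_succ, ET_inv]
    simp only [hP]
    ring
  rw [e1]
  have h4 : ‖(N : ℂ)⁻¹ * ∑ n ∈ Finset.Icc 1 N, P n * (((ρ : ℂ)⁻¹ * ∑ k ∈ range ρ, f m (T^[k] (T^[a m * n] z))) -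
        ET ν T C (f m) (T^[a m * n] z))‖ ≤ ε / 4 := by
    rw [norm_mul, norm_inv, Complex.norm_natCast]
    calc (N : ℝ)⁻¹ * ‖∑ n ∈ Finset.Icc 1 N, P n * (((ρ : ℂ)⁻¹ * ∑ k ∈ range ρ, f m (T^[k] (T^[a m * n] z))) -
        ET ν T C (f m) (T^[a m * n] z))‖
        ≤ (N : ℝ)⁻¹ * ∑ n ∈ Finset.Icc 1 N, C ^ (m + 1) * ‖(((ρ : ℂ)⁻¹ * ∑ k ∈ range ρ, f m (T^[k] (T^[a m * n] z))) -
        ET ν T C (f m) (T^[a m * n] z))‖ := by
          gcongr
          refine norm_sum_le_of_le _ fun n _ => ?_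
          rw [norm_mul]
          gcongr
          exact hPb n
      _ = C ^ (m + 1) * ((N : ℝ)⁻¹ * ∑ n ∈ range N, ‖(((ρ : ℂ)⁻¹ * ∑ k ∈ range ρ, f m (T^[k] (T^[a m * (n + 1)] z))) -
        ET ν T C (f m) (T^[a m * (n + 1)] z))‖) := by
          rw [← Finset.mul_sum, mul_left_comm, sum_Icc_range]
      _ ≤ C ^ (m + 1) * (ε / (4 * C ^ (m + 1))) := by gcongr
      _ = ε / 4 := by field_simp
  calc _ ≤ _ := norm_sub_le _ _
    _ < ε / 4 + ε / 2 := add_lt_add_of_le_of_lt h4 h2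
    _ < ε := by linarith

/-- convergence of the weighted multiple averages -/
theorem step_all_w {ν : Measure X} [IsProbabilityMeasure ν] {T : X → X} (hT : MeasurePreserving T ν ν) (m : ℕ)
    (a : ℕ → ℕ) (f : ℕ → X → ℂ) (hf : ∀ j, Measurable (f j)) (C : ℝ) (hC : 1 ≤ C) (hfC : ∀ j z, ‖f j z‖ ≤ C)
    (w : ℕ → X → ℂ) (hw : ∀ n z, ‖w n z‖ ≤ C)
    (h : ∀ r < m, ∀ i : ℕ, ∀ᵐ z ∂ν, Tendsto (fun N : ℕ => (N : ℂ)⁻¹ * ∑ n ∈ Finset.Icc 1 N,
      (w n z * ∏ j ∈ range r, f j (T^[a j * n] z)) * (f r (T^[a r * n + i + 1] z) - f r (T^[a r * n + i] z))) atTop (𝓝 0)) :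
    ∀ᵐ z ∂ν, Tendsto (fun N : ℕ => wav T w m a f N z -
      (∏ j ∈ range m, EI ν T (f j) z) * ((N : ℂ)⁻¹ * ∑ n ∈ Finset.Icc 1 N, w n z)) atTop (𝓝 0) := by
  induction m with
  | zero =>
    filter_upwards with z
    unfold wav
    simp
  | succ m ih =>
    filter_upwards [ih (fun r hr => h r (by omega)), step_one_w hT m a f hf C hC hfC w hw (h m (by omega)),
      ET_eq hT (f m) (hf m) C (by linarith) (hfC m)] with z h1 h2 h3
    have h4 := h2.add (h1.const_mul (ET ν T C (f m) z))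
    rw [mul_zero, zero_add] at h4
    refine h4.congr fun N => ?_
    rw [Finset.prod_range_succ, ← h3]
    ring

/-- weighted averages of products with offsets -/
noncomputable def gavw (T : X → X) (w : ℕ → X → ℂ) (m : ℕ) (a d : ℕ → ℕ) (f : ℕ → X → ℂ) (N : ℕ) (z : X) : ℂ :=
  (N : ℂ)⁻¹ * ∑ n ∈ Finset.Icc 1 N, w n z * ∏ j ∈ range m, f j (T^[a j * n + d j] z)

lemma gav_close_w (ν : Measure X) [IsProbabilityMeasure ν] {T : X → X} (hT : MeasurePreserving T ν ν) (m : ℕ)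
    (a d : ℕ → ℕ) (f g : ℕ → X → ℂ) (hf : ∀ j, Measurable (f j)) (hg : ∀ j, Measurable (g j)) (C : ℝ) (hC : 1 ≤ C)
    (hfC : ∀ j z, ‖f j z‖ ≤ C) (hgC : ∀ j z, ‖g j z‖ ≤ C)
    (w : ℕ → X → ℂ) (hw : ∀ n z, ‖w n z‖ ≤ C) (ε : ℝ) (hfg : ∀ j < m, ∫ z, ‖f j z - g j z‖ ∂ν ≤ ε)
    (δ : ℝ) (hδ : 0 < δ) :
    ν {z | ¬ ∀ᶠ N : ℕ in atTop, ‖gavw T w m a d f N z - gavw T w m a d g N z‖ ≤ C ^ (m + 1) * (m * δ)} ≤
      m * ENNReal.ofReal (ε / δ) := by
  have hC0 : 0 ≤ C := by linarith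
  set U : ℕ → Set X := fun j =>
      {z | ¬ ∀ᶠ N : ℕ in atTop, (N : ℝ)⁻¹ * ∑ n ∈ range N, ‖f j (T^[a j * (n + 1) + d j] z) -
        g j (T^[a j * (n + 1) + d j] z)‖ ≤ δ} with hU
  have hsub : {z | ¬ ∀ᶠ N : ℕ in atTop, ‖gavw T w m a d f N z - gavw T w m a d g N z‖ ≤ C ^ (m + 1) * (m * δ)} ⊆
      (⋃ j ∈ range m, U j : Set X) := by
    intro z hz
    by_contra hcon
    apply hz
    have hcon' : ∀ j < m, z ∉ U j := by
      intro j hj hmem
      exact hcon (Set.mem_biUnion (Finset.mem_coe.2 (Finset.mem_range.2 hj)) hmem)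
    have hev1 : ∀ᶠ N : ℕ in atTop, ∀ j ∈ range m, (N : ℝ)⁻¹ * ∑ n ∈ range N, ‖f j (T^[a j * (n + 1) + d j] z) -
        g j (T^[a j * (n + 1) + d j] z)‖ ≤ δ := by
      rw [Filter.eventually_all_finset]
      intro j hj
      by_contra hne
      exact (hcon' j (Finset.mem_range.1 hj)) hne
    filter_upwards [hev1] with N h1
    unfold gavw
    rw [← mul_sub, ← Finset.sum_sub_distrib, norm_mul, norm_inv, Complex.norm_natCast]
    calc (N : ℝ)⁻¹ * ‖∑ n ∈ Finset.Icc 1 N, (w n z * ∏ j ∈ range m, f j (T^[a j * n + d j] z) -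
            w n z * ∏ j ∈ range m, g j (T^[a j * n + d j] z))‖
        ≤ (N : ℝ)⁻¹ * ∑ n ∈ Finset.Icc 1 N, C ^ (m + 1) * ∑ j ∈ range m, ‖f j (T^[a j * n + d j] z) -
            g j (T^[a j * n + d j] z)‖ := by
          gcongr
          refine norm_sum_le_of_le _ fun n _ => ?_
          rw [← mul_sub, norm_mul, pow_succ', mul_assoc]
          exact mul_le_mul (hw n z) (prod_sub_le C hC m _ _ (fun j => hfC j _) (fun j => hgC j _)) (norm_nonneg _) hC0
      _ = C ^ (m + 1) * ∑ j ∈ range m, (N : ℝ)⁻¹ * ∑ n ∈ range N, ‖f j (T^[a j * (n + 1) + d j] z) -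
            g j (T^[a j * (n + 1) + d j] z)‖ := by
          rw [← Finset.mul_sum, mul_left_comm, sum_Icc_range, Finset.sum_comm, Finset.mul_sum]
      _ ≤ C ^ (m + 1) * ∑ _j ∈ range m, δ := by
          gcongr with j hj
          exact h1 j hj
      _ = C ^ (m + 1) * (m * δ) := by rw [Finset.sum_const, Finset.card_range, nsmul_eq_mul]
  refine (measure_mono hsub).trans ((measure_biUnion_finset_le (range m) _).trans ?_)
  have hUV : ∀ j ∈ range m, ν (U j) ≤ ENNReal.ofReal (ε / δ) := by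
    intro j hj
    rw [Finset.mem_range] at hj
    have h1 := avg_small' ν hT (a j) (d j) (fun z => ‖f j z - g j z‖) ((hf j).sub (hg j)).norm (C + C)
      (fun z => norm_nonneg _) (fun z => (norm_sub_le _ _).trans (add_le_add (hfC j z) (hgC j z))) δ hδ
    refine h1.trans (ENNReal.ofReal_le_ofReal ?_)
    have := hfg j hj
    gcongr
  refine (Finset.sum_le_sum hUV).trans (le_of_eq ?_)
  rw [Finset.sum_const, Finset.card_range, nsmul_eq_mul]

theorem clos_gav_w (ν : Measure X) [IsProbabilityMeasure ν] {T : X → X} (hT : MeasurePreserving T ν ν) (m : ℕ)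
    (a d d' : ℕ → ℕ) (f : ℕ → X → ℂ) (hf : ∀ j, Measurable (f j)) (C : ℝ) (hC : 1 ≤ C)
    (hfC : ∀ j z, ‖f j z‖ ≤ C) (w : ℕ → X → ℂ) (hw : ∀ n z, ‖w n z‖ ≤ C)
    (h : ∀ ε : ℝ, 0 < ε → ∃ g : ℕ → X → ℂ, (∀ j, Measurable (g j)) ∧ (∀ j z, ‖g j z‖ ≤ C) ∧
      (∀ j < m, ∫ z, ‖f j z - g j z‖ ∂ν ≤ ε) ∧
      ∀ᵐ z ∂ν, Tendsto (fun N : ℕ => gavw T w m a d g N z - gavw T w m a d' g N z) atTop (𝓝 0)) :
    ∀ᵐ z ∂ν, Tendsto (fun N : ℕ => gavw T w m a d f N z - gavw T w m a d' f N z) atTop (𝓝 0) := by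
  have hC0 : 0 ≤ C := by linarith
  have hbad : ∀ k : ℕ, ∀ᵐ z ∂ν, ∀ᶠ N : ℕ in atTop,
      ‖gavw T w m a d f N z - gavw T w m a d' f N z‖ ≤ 1 / ((k : ℝ) + 1) := by
    intro k
    set δ : ℝ := 1 / ((k : ℝ) + 1) with hδ
    have hδ0 : 0 < δ := by positivity
    set δ' : ℝ := δ / (4 * C ^ (m + 1) * (m + 1)) with hδ'
    have hδ'0 : 0 < δ' := by positivity
    rw [ae_iff, ← nonpos_iff_eq_zero]
    apply ENNReal.le_of_forall_pos_le_add
    intro η hη _
    rw [zero_add]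
    have hη' : (0 : ℝ) < η := by exact_mod_cast hη
    set ε : ℝ := η * δ' / (2 * (m + 1)) with hε
    have hε0 : 0 < ε := by positivity
    obtain ⟨g, hgm, hgC, hfg, hg⟩ := h ε hε0
    have h1 := gav_close_w ν hT m a d f g hf hgm C hC hfC hgC w hw ε hfg δ' hδ'0
    have h2 := gav_close_w ν hT m a d' f g hf hgm C hC hfC hgC w hw ε hfg δ' hδ'0
    have hsub : {z | ¬ ∀ᶠ N : ℕ in atTop, ‖gavw T w m a d f N z - gavw T w m a d' f N z‖ ≤ δ} ≤ᵐ[ν]
        ({z | ¬ ∀ᶠ N : ℕ in atTop, ‖gavw T w m a d f N z - gavw T w m a d g N z‖ ≤ C ^ (m + 1) * (m * δ')} ∪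
          {z | ¬ ∀ᶠ N : ℕ in atTop, ‖gavw T w m a d' f N z - gavw T w m a d' g N z‖ ≤ C ^ (m + 1) * (m * δ')} : Set X) := by
      filter_upwards [hg] with z hz hbadz
      by_contra hcon
      apply hbadz
      have hcon1 : ∀ᶠ N : ℕ in atTop, ‖gavw T w m a d f N z - gavw T w m a d g N z‖ ≤ C ^ (m + 1) * (m * δ') := by
        by_contra hne
        exact hcon (Or.inl hne)
      have hcon2 : ∀ᶠ N : ℕ in atTop, ‖gavw T w m a d' f N z - gavw T w m a d' g N z‖ ≤ C ^ (m + 1) * (m * δ') := by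
        by_contra hne
        exact hcon (Or.inr hne)
      have hev3 : ∀ᶠ N : ℕ in atTop, ‖gavw T w m a d g N z - gavw T w m a d' g N z‖ ≤ δ / 2 := by
        have h5 := (tendsto_zero_iff_norm_tendsto_zero.1 hz)
        exact (h5.eventually (eventually_le_nhds (show (0:ℝ) < δ / 2 by positivity)))
      filter_upwards [hcon1, hcon2, hev3] with N h1 h2 h3
      have hCm : 0 < C ^ (m + 1) := by positivity
      have hfin : C ^ (m + 1) * (m * δ') + C ^ (m + 1) * (m * δ') ≤ δ / 2 := by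
        have e2 : C ^ (m + 1) * (m * δ') + C ^ (m + 1) * (m * δ') = δ / 2 * (m / (m + 1)) := by
          rw [hδ']; field_simp; ring
        rw [e2]
        have e3 : (m : ℝ) / (m + 1) ≤ 1 := by rw [div_le_one (by positivity)]; linarith
        have e4 : 0 ≤ δ / 2 := by positivity
        nlinarith
      have e5 : gavw T w m a d f N z - gavw T w m a d' f N z = (gavw T w m a d f N z - gavw T w m a d g N z) -
          (gavw T w m a d' f N z - gavw T w m a d' g N z) + (gavw T w m a d g N z - gavw T w m a d' g N z) := by ring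
      rw [e5]
      refine (norm_add_le _ _).trans ?_
      have := norm_sub_le (gavw T w m a d f N z - gavw T w m a d g N z) (gavw T w m a d' f N z - gavw T w m a d' g N z)
      linarith
    refine (measure_mono_ae hsub).trans ((measure_union_le _ _).trans ((add_le_add h1 h2).trans ?_))
    rw [← ENNReal.ofReal_natCast, ← ENNReal.ofReal_mul (by positivity), ← ENNReal.ofReal_add (by positivity) (by positivity)]
    rw [show (η : ℝ≥0∞) = ENNReal.ofReal (η : ℝ) by rw [ENNReal.ofReal_coe_nnreal]]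
    apply ENNReal.ofReal_le_ofReal
    have e5 : (m : ℝ) * (ε / δ') + m * (ε / δ') = η * (m / (m + 1)) := by
      rw [hε]; field_simp; ring
    rw [e5]
    have e3 : (m : ℝ) / (m + 1) ≤ 1 := by rw [div_le_one (by positivity)]; linarith
    nlinarith
  filter_upwards [ae_all_iff.2 hbad] with z hz
  rw [Metric.tendsto_nhds]
  intro ε hε
  obtain ⟨k, hk⟩ := exists_nat_one_div_lt hε
  filter_upwards [hz k] with N hN
  rw [dist_zero_right]
  exact hN.trans_lt hk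

/-- the weighted averages in the shift property -/
noncomputable def savw (T : X → X) (w : ℕ → X → ℂ) (r : ℕ) (a : ℕ → ℕ) (f : ℕ → X → ℂ) (c i : ℕ) (N : ℕ) (z : X) : ℂ :=
  (N : ℂ)⁻¹ * ∑ n ∈ Finset.Icc 1 N, (w n z * ∏ j ∈ range r, f j (T^[a j * n + c] z)) *
    (f r (T^[a r * n + c + i + 1] z) - f r (T^[a r * n + c + i] z))

omit [MeasurableSpace X] in
lemma savw_eq (T : X → X) (w : ℕ → X → ℂ) (r : ℕ) (a : ℕ → ℕ) (f : ℕ → X → ℂ) (i N : ℕ) (z : X) :
    savw T w r a f 0 i N z = gavw T w (r + 1) a (fun j => if j < r then 0 else i + 1) f N z -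
      gavw T w (r + 1) a (fun j => if j < r then 0 else i) f N z := by
  unfold savw gavw
  rw [← mul_sub, ← Finset.sum_sub_distrib]
  congr 1
  refine Finset.sum_congr rfl fun n _ => ?_
  have e1 : ∀ q : ℕ, ∏ j ∈ range r, f j (T^[a j * n + (fun j => if j < r then 0 else q) j] z) =
      ∏ j ∈ range r, f j (T^[a j * n + 0] z) := fun q =>
    Finset.prod_congr rfl fun j hj => by simp only [if_pos (Finset.mem_range.1 hj)]
  rw [Finset.prod_range_succ, Finset.prod_range_succ, e1, e1]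
  simp only [lt_irrefl, if_false]
  rw [mul_sub]
  simp only [add_zero, add_assoc, mul_assoc]

end Abs

end Pool.Agent.R205.TD
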