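import Pool.Agent.R205.TD.E

/-!
# Almost every time change on a small set, with weights
-/

set_option autoImplicit false

open MeasureTheory Filter Topology Set Finset
open scoped ENNReal ComplexConjugate

namespace Pool.Agent.R205.TD

open Pool.Agent.R205.PC (Lk avg_small prod_sub_le ex fx dd dd_meas dd_bound dd_approx mp_update)
open Pool.Agent.R205.TC (rh meas_rh meas_rh2 meas_tow2 meas_tow_iter tow tow_lev tow_pos tow_mp tow_bij tm tm_prob ae_tm dm
  int_le EI CP coin)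
open MeasurableSpace

variable {Y : Type*} [MeasurableSpace Y]

omit [MeasurableSpace Y] in
theorem star_point_w (S : Y → Y) (ξ h₀ : Y → ℕ) (k0 : ℕ) (H : ℕ) (hh1 : ∀ y, 1 ≤ h₀ y) (hhH : ∀ y, h₀ y ≤ H)
    (r : ℕ) (a : ℕ → ℕ) (ha0 : 1 ≤ a r) (ha : ∀ j < r, a j + 1 ≤ a r) (f : ℕ → Y × ℕ → ℂ) (C : ℝ) (hC : 1 ≤ C)
    (hf : ∀ j z, ‖f j z‖ ≤ C) (w : ℕ → Y → ℂ) (hw : ∀ n y, ‖w n y‖ ≤ C)
    (c i : ℕ) (y : Y) (hy : FreshL S ξ k0 y) :
    ∀ᵐ θ ∂CP, Tendsto (fun N : ℕ => savw (tow S (rh h₀ ξ θ)) (fun n z => w n z.1) r a f c i N (y, 0)) atTop (𝓝 0) := by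
  have h1 := star S ξ y k0 hy (fun s => h₀ (S^[s] y)) (H + 1) (fun s => hh1 _) (fun s => by have := hhH (S^[s] y); omega)
    r a ha0 ha c i (fun n => w n y) (fun j q => f j (S^[q.1] y, q.2)) C hC (fun n => hw n y) (fun j z => hf j _)
  filter_upwards [h1] with θ hθ
  refine hθ.congr fun N => ?_
  unfold savw
  congr 1
  refine Finset.sum_congr rfl fun n _ => ?_
  simp only [tow_pos]
  rfl

/-- the shift property, fixed functions -/
theorem star_ae_w (μ : Measure Y) [IsProbabilityMeasure μ] {S : Y → Y} (hS : Measurable S) {ξ h₀ : Y → ℕ}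
    (hξ : Measurable ξ) (hh : Measurable h₀) (k0 : ℕ) (hfr : ∀ᵐ y ∂μ, FreshL S ξ k0 y)
    (H : ℕ) (hh1 : ∀ y, 1 ≤ h₀ y) (hhH : ∀ y, h₀ y ≤ H)
    (r : ℕ) (a : ℕ → ℕ) (ha0 : 1 ≤ a r) (ha : ∀ j < r, a j + 1 ≤ a r) (f : ℕ → Y × ℕ → ℂ)
    (hfm : ∀ j, Measurable (f j)) (C : ℝ) (hC : 1 ≤ C) (hf : ∀ j z, ‖f j z‖ ≤ C)
    (w : ℕ → Y → ℂ) (hwm : ∀ n, Measurable (w n)) (hw : ∀ n y, ‖w n y‖ ≤ C) (i : ℕ) :
    ∀ᵐ θ ∂CP, ∀ᵐ z ∂(tm μ (rh h₀ ξ θ)),
      Tendsto (fun N : ℕ => savw (tow S (rh h₀ ξ θ)) (fun n z => w n z.1) r a f 0 i N z) atTop (𝓝 0) := by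
  have h1 : ∀ c : ℕ, ∀ᵐ θ ∂CP, ∀ᵐ y ∂μ,
      Tendsto (fun N : ℕ => savw (tow S (rh h₀ ξ θ)) (fun n z => w n z.1) r a f c i N (y, 0)) atTop (𝓝 0) := by
    intro c
    have hset : MeasurableSet {W : (ℕ → Bool) × Y |
        Tendsto (fun N : ℕ => savw (tow S (rh h₀ ξ W.1)) (fun n z => w n z.1) r a f c i N (W.2, 0)) atTop (𝓝 0)} := by
      refine measurableSet_tendsto (𝓝 0) fun N => ?_
      unfold savw
      refine measurable_const.mul (Finset.measurable_fun_sum _ fun n _ => ?_)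
      refine Measurable.mul (Measurable.mul ((hwm n).comp measurable_snd) (Finset.measurable_fun_prod _ fun j _ => ?_))
        (Measurable.sub ?_ ?_)
      · exact (hfm j).comp (meas_tow_iter hS hh hξ _)
      · exact (hfm r).comp (meas_tow_iter hS hh hξ _)
      · exact (hfm r).comp (meas_tow_iter hS hh hξ _)
    rw [Measure.ae_ae_comm hset]
    filter_upwards [hfr] with y hy
    exact star_point_w S ξ h₀ k0 H hh1 hhH r a ha0 ha f C hC hf w hw c i y hy
  filter_upwards [ae_all_iff.2 h1] with θ hθ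
  refine ae_tm μ (meas_rh hh hξ θ) ?_
  filter_upwards [ae_all_iff.2 hθ] with y hy l hl
  refine (hy l).congr fun N => ?_
  unfold savw
  congr 1
  refine Finset.sum_congr rfl fun n _ => ?_
  have e : ∀ p q, q = p + l → (tow S (rh h₀ ξ θ))^[q] (y, 0) = (tow S (rh h₀ ξ θ))^[p] (y, l) := by
    intro p q hq
    rw [hq, Function.iterate_add_apply, tow_lev S _ y l hl]
  refine congrArg₂ (· * ·) (congrArg₂ (· * ·) rfl (Finset.prod_congr rfl fun j _ => ?_)) (congrArg₂ (· - ·) ?_ ?_)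
  · rw [e (a j * n + 0) _ (by omega)]
  · rw [e (a r * n + 0 + i + 1) _ (by omega)]
  · rw [e (a r * n + 0 + i) _ (by omega)]


/-- For almost every time change all weighted multiple averages converge. -/
theorem all_f_w [CountablyGenerated Y] (μ : Measure Y) [IsProbabilityMeasure μ] {S : Y → Y} (hS : MeasurePreserving S μ μ)
    {ξ h₀ : Y → ℕ} (hξ : Measurable ξ) (hh : Measurable h₀) (k0 : ℕ) (hfr : ∀ᵐ y ∂μ, FreshL S ξ k0 y)
    (H : ℕ) (hh1 : ∀ y, 1 ≤ h₀ y) (hhH : ∀ y, h₀ y ≤ H)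
    (w : ℕ → Y → ℂ) (hwm : ∀ n, Measurable (w n)) (hwb : ∃ C, ∀ n y, ‖w n y‖ ≤ C) :
    ∀ᵐ θ ∂CP, ∀ (m : ℕ) (a : Fin m → ℕ), StrictMono a → (∀ j, 0 < a j) →
      ∀ f : Fin m → Y × ℕ → ℂ, (∀ j, Measurable (f j)) → (∃ C, ∀ j z, ‖f j z‖ ≤ C) →
      ∀ᵐ z ∂(tm μ (rh h₀ ξ θ)), Tendsto (fun N : ℕ =>
        wav (tow S (rh h₀ ξ θ)) (fun n z => w n z.1) m (ex a) (fx f) N z -
          (∏ j ∈ range m, EI (tm μ (rh h₀ ξ θ)) (tow S (rh h₀ ξ θ)) (fx f j) z) *
            ((N : ℂ)⁻¹ * ∑ n ∈ Finset.Icc 1 N, w n z.1)) atTop (𝓝 0) := by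
  obtain ⟨Cw, hCw⟩ := hwb
  have hpr : IsProbabilityMeasure (dm μ (H + 1)) :=
    tm_prob μ measurable_const (fun _ => by omega) (H + 1) (fun _ => le_rfl)
  set νb : Measure (Y × ℕ) := dm μ (H + 1) with hνb
  have key : ∀ᵐ θ ∂CP, ∀ (m : ℕ) (a : Fin m → ℕ) (i : Fin m → ℕ) (M : ℕ) (r q : ℕ),
      StrictMono a → (∀ j, 0 < a j) → r < m →
      ∀ᵐ z ∂(tm μ (rh h₀ ξ θ)), Tendsto (fun N : ℕ => savw (tow S (rh h₀ ξ θ)) (fun n z => w n z.1) r (ex a)
        (fun j => dd νb (ex i j) M) 0 q N z) atTop (𝓝 0) := by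
    rw [ae_all_iff]; intro m
    rw [ae_all_iff]; intro a
    rw [ae_all_iff]; intro i
    rw [ae_all_iff]; intro M
    rw [ae_all_iff]; intro r
    rw [ae_all_iff]; intro q
    by_cases h : StrictMono a ∧ (∀ j, 0 < a j) ∧ r < m
    · obtain ⟨ha, ha0, hr⟩ := h
      have hr1 : 1 ≤ ex a r := by
        unfold ex
        rw [dif_pos hr]
        exact ha0 _
      have hr2 : ∀ j < r, ex a j + 1 ≤ ex a r := by
        intro j hj
        unfold ex
        rw [dif_pos hr, dif_pos (hj.trans hr)]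
        exact ha (show (⟨j, hj.trans hr⟩ : Fin m) < ⟨r, hr⟩ from hj)
      have hM0 : (0 : ℝ) ≤ M := Nat.cast_nonneg M
      have hMx : (0 : ℝ) ≤ max Cw 0 := le_max_right _ _
      filter_upwards [star_ae_w μ hS.measurable hξ hh k0 hfr H hh1 hhH r (ex a) hr1 hr2 (fun j => dd νb (ex i j) M)
        (fun j => dd_meas _ _ _) (M + 1 + max Cw 0) (by linarith)
        (fun j z => (dd_bound _ _ _ _).trans (by linarith)) w hwm
        (fun n y => (hCw n y).trans ((le_max_left _ _).trans (by linarith))) q] with θ hθ _ _ _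
      exact hθ
    · filter_upwards with θ h1 h2 h3
      exact absurd ⟨h1, h2, h3⟩ h
  filter_upwards [key] with θ hθ m a ha ha0 f hf hfb
  obtain ⟨C0, hC0⟩ := hfb
  set hgt' := rh h₀ ξ θ with hhgt
  have hhm : Measurable hgt' := meas_rh hh hξ θ
  have hh1' : ∀ y, 1 ≤ hgt' y := fun y => by
    have := hh1 y
    simp only [hhgt, rh]
    omega
  have hhb' : ∀ y, hgt' y ≤ H + 1 := fun y => by
    have := hhH y
    have := Bool.toNat_le (θ (ξ y))
    simp only [hhgt, rh]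
    omega
  have hpr' : IsProbabilityMeasure (tm μ hgt') := tm_prob μ hhm hh1' (H + 1) hhb'
  have hTmp := tow_mp μ hS hhm hh1'
  set M : ℕ := ⌈max C0 0⌉₊ + ⌈max Cw 0⌉₊ + 1 with hM
  have hCM : max C0 0 + 1 ≤ (M : ℝ) := by
    rw [hM]; push_cast
    have h1 := Nat.le_ceil (max C0 0)
    have h2 : (0 : ℝ) ≤ (⌈max Cw 0⌉₊ : ℝ) := Nat.cast_nonneg _
    linarith
  have hwM : ∀ n y, ‖w n y‖ ≤ M := by
    intro n y
    rw [hM]; push_cast
    have h1 := Nat.le_ceil (max Cw 0)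
    have h2 : (0 : ℝ) ≤ (⌈max C0 0⌉₊ : ℝ) := Nat.cast_nonneg _
    have h3 := (hCw n y).trans (le_max_left Cw 0)
    linarith
  have hM1 : (1 : ℝ) ≤ M := by
    have : (0 : ℝ) ≤ max C0 0 := le_max_right _ _
    linarith
  have hfxm : ∀ j, Measurable (fx f j) := by
    intro j
    unfold fx
    split_ifs with h
    · exact hf _
    · exact measurable_const
  have hfxb : ∀ j z, ‖fx f j z‖ ≤ max C0 0 := by
    intro j z
    unfold fx
    split_ifs with h
    · exact (hC0 _ z).trans (le_max_left _ _)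
    · rw [norm_zero]; exact le_max_right _ _
  have hfxM : ∀ j z, ‖fx f j z‖ ≤ M := fun j z => (hfxb j z).trans (by linarith)
  refine step_all_w hTmp m (ex a) (fx f) hfxm M hM1 hfxM (fun n z => w n z.1) (fun n z => hwM n z.1) ?_
  intro r hr q
  have hcl := clos_gav_w (tm μ hgt') hTmp (r + 1) (ex a) (fun j => if j < r then 0 else q + 1)
    (fun j => if j < r then 0 else q) (fx f) hfxm M hM1 hfxM (fun n z => w n z.1) (fun n z => hwM n z.1) ?_
  · filter_upwards [hcl] with z hz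
    refine hz.congr fun N => ?_
    rw [← savw_eq]
    unfold savw
    simp only [add_zero]
  intro ε hε
  have happ : ∀ j : Fin m, ∃ i, ∫ z, ‖fx f j z - dd νb i M z‖ ∂νb ≤ ε / (H + 1) := fun j =>
    dd_approx νb (fx f j) (hfxm j) (max C0 0) (le_max_right _ _) (hfxb j) M hCM _ (by positivity)
  choose i hi using happ
  refine ⟨fun j => dd νb (ex i j) M, fun j => dd_meas _ _ _, fun j z => dd_bound _ _ _ _, ?_, ?_⟩
  · intro j hj
    have e1 : ex i j = i ⟨j, by omega⟩ := by rw [ex, dif_pos (show j < m by omega)]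
    have h3 := int_le μ hhm hh1' (H + 1) hhb' (by omega) (fun z => ‖fx f j z - dd νb (ex i j) M z‖)
      ((hfxm j).sub (dd_meas _ _ _)).norm (M + M) (fun z => norm_nonneg _)
      (fun z => (norm_sub_le _ _).trans (add_le_add (hfxM j z) (dd_bound _ _ _ _)))
    refine h3.trans ?_
    have h4 := hi ⟨j, by omega⟩
    rw [← e1] at h4
    push_cast
    calc ((H : ℝ) + 1) * ∫ z, ‖fx f j z - dd νb (ex i j) M z‖ ∂(dm μ (H + 1)) ≤ ((H : ℝ) + 1) * (ε / (H + 1)) := by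
          gcongr
      _ = ε := by field_simp
  · filter_upwards [hθ m a i M r q ha ha0 hr] with z hz
    refine hz.congr fun N => ?_
    rw [savw_eq]



/-- the random heights, raised only where `ξ ≠ 0` -/
def rh2 (h₀ ξ : Y → ℕ) (θ : ℕ → Bool) (y : Y) : ℕ := h₀ y + if ξ y = 0 then 0 else (θ (ξ y)).toNat

omit [MeasurableSpace Y] in
lemma rh_update (h₀ ξ : Y → ℕ) (θ : ℕ → Bool) : rh h₀ ξ (Function.update θ 0 false) = rh2 h₀ ξ θ := by
  funext y
  unfold rh rh2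
  split_ifs with h
  · rw [h, Function.update_self]; rfl
  · rw [Function.update_of_ne h]

lemma ae_coin {P : Bool → Prop} (h : ∀ᵐ b ∂coin, P b) (b : Bool) : P b := by
  by_contra hne
  rw [ae_iff] at h
  have h1 : coin {b} ≤ 0 := by
    rw [← h]
    refine measure_mono ?_
    intro x hx
    rw [Set.mem_singleton_iff] at hx
    rw [hx]
    exact hne
  have h2 : coin {b} = 2⁻¹ := by
    unfold coin
    rw [Measure.smul_apply, Measure.add_apply, Measure.dirac_apply' _ (measurableSet_singleton b),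
      Measure.dirac_apply' _ (measurableSet_singleton b)]
    cases b <;> simp
  rw [h2] at h1
  simp at h1

lemma ae_update {P : (ℕ → Bool) → Prop} (h : ∀ᵐ θ ∂CP, P θ) : ∀ᵐ θ ∂CP, P (Function.update θ 0 false) := by
  have h1 : ∀ᵐ p ∂((Measure.infinitePi (fun _ : ℕ => coin)).prod coin), P (Function.update p.1 0 p.2) :=
    (mp_update coin 0).quasiMeasurePreserving.ae h
  have h2 := Measure.ae_ae_of_ae_prod h1
  have h3 : ∀ᵐ θ ∂(Measure.infinitePi (fun _ : ℕ => coin)), P (Function.update θ 0 false) := by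
    filter_upwards [h2] with θ hθ
    exact ae_coin hθ false
  exact h3

end Pool.Agent.R205.TD
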